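import Pool.Agent.Helper5.FRC.Defs

/-!
# Packet FRC-FOUR
-/

set_option autoImplicit false

namespace Pool.Agent.Helper59.FRC.FOUR

open Finset Pool.Agent.Helper5.FRC

lemma graph4 (a01 a02 a03 a12 a13 a23 : Prop) (h0 : a01 ∨ a02 ∨ a03) (h1 : a01 ∨ a12 ∨ a13) (h2 : a02 ∨ a12 ∨ a23)
    (h3 : a03 ∨ a13 ∨ a23) (g1 : ¬ (a01 ∧ a23)) (g2 : ¬ (a02 ∧ a13)) (g3 : ¬ (a03 ∧ a12)) :
    (¬ a12 ∧ ¬ a13 ∧ ¬ a23) ∨ (¬ a02 ∧ ¬ a03 ∧ ¬ a23) ∨ (¬ a01 ∧ ¬ a03 ∧ ¬ a13) ∨ (¬ a01 ∧ ¬ a02 ∧ ¬ a12) := by
  by_cases h01 : a01 <;> by_cases h02 : a02 <;> by_cases h03 : a03 <;> by_cases h12 : a12 <;>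
    by_cases h13 : a13 <;> by_cases h23 : a23 <;>
    simp only [h01, h02, h03, h12, h13, h23, true_or, or_true, or_false, false_or, true_and, and_true, false_and, and_false,
      not_true_eq_false, not_false_eq_true, or_self, and_self] at *

theorem t (hP : PairStmt) (hS : StarStmt) : FourStmt := by
  intro V _ _ n A t C hn ht hB hC hodd hdis hA
  have hsub : ∀ i, C i ⊆ A := by
    intro i x hx
    rw [hA, mem_biUnion]
    exact ⟨i, mem_univ i, hx⟩
  have hcov : ∀ x ∈ A, ∃ i, x ∈ C i := by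
    intro x hx
    rw [hA, mem_biUnion] at hx
    obtain ⟨i, _, hi⟩ := hx
    exact ⟨i, hi⟩
  let E : Fin 4 → Fin 4 → Prop := fun i j => ∃ x ∈ C i, t x ∈ C j
  have hsym : ∀ i j, E i j → E j i := by
    rintro i j ⟨x, hx, htx⟩
    refine ⟨t x, htx, ?_⟩
    rw [(ht x (hsub i hx)).2.1]
    exact hx
  have hnb : ∀ i, ∃ j, j ≠ i ∧ E i j := by
    intro i
    by_contra hcon
    push Not at hcon
    have hcl : ∀ x ∈ C i, t x ∈ C i := by
      intro x hx
      obtain ⟨j, hj⟩ := hcov (t x) (ht x (hsub i hx)).1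
      by_cases hji : j = i
      · rw [← hji]; exact hj
      · exact absurd ⟨x, hx, hj⟩ (hcon j hji)
    have hs : ∑ x ∈ C i, (1 : ZMod 2) = 0 := by
      refine sum_involution (fun x _ => t x) ?_ ?_ ?_ ?_
      · intro x _
        decide
      · intro x hx _
        exact (ht x (hsub i hx)).2.2
      · intro x hx
        exact hcl x hx
      · intro x hx
        exact (ht x (hsub i hx)).2.1
    rw [sum_const, nsmul_eq_mul, mul_one, ZMod.natCast_eq_zero_iff_even] at hs
    exact (Nat.not_even_iff_odd.2 (hodd i)) hs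
  have hAe : ∀ e : Equiv.Perm (Fin 4), A = univ.biUnion (fun i => C (e i)) := by
    intro e
    ext x
    rw [mem_biUnion]
    constructor
    · intro hx
      obtain ⟨i, hi⟩ := hcov x hx
      exact ⟨e.symm i, mem_univ _, by rw [e.apply_symm_apply]; exact hi⟩
    · rintro ⟨i, _, hi⟩
      exact hsub _ hi
  have hpair : ∀ e : Equiv.Perm (Fin 4), E (e 0) (e 1) → E (e 2) (e 3) → Sol n A t := by
    rintro e ⟨x, hx, htx⟩ ⟨y, hy, hty⟩
    exact hP V n A t (fun i => C (e i)) hn ht hB (fun i => hC _) (fun i => hodd _)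
      (fun i j hij => hdis _ _ (fun h => hij (e.injective h))) (hAe e) x hx htx y hy hty
  have hstar : ∀ c : Fin 4, (∀ i j, i ≠ c → j ≠ c → i ≠ j → ¬ E i j) → Sol n A t := by
    intro c hc
    refine hS V n A t (fun i => C (Equiv.swap 3 c i)) hn ht hB (fun i => hC _) (fun i => hodd _)
      (fun i j hij => hdis _ _ (fun h => hij ((Equiv.swap 3 c).injective h))) (hAe _) ?_
    intro i hi x hx
    have hic : Equiv.swap 3 c i ≠ c := by
      intro h
      have h2 : Equiv.swap 3 c 3 = c := Equiv.swap_apply_left 3 c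
      exact hi ((Equiv.swap 3 c).injective (h.trans h2.symm))
    obtain ⟨j, hj⟩ := hcov (t x) (ht x (hsub _ hx)).1
    by_cases h1 : j = Equiv.swap 3 c i
    · left
      show t x ∈ C (Equiv.swap 3 c i)
      rw [← h1]
      exact hj
    · right
      show t x ∈ C (Equiv.swap 3 c 3)
      rw [Equiv.swap_apply_left]
      by_cases h2 : j = c
      · rw [← h2]; exact hj
      · exact absurd ⟨x, hx, hj⟩ (hc _ j hic h2 (fun h => h1 h.symm))
  by_cases g1 : E 0 1 ∧ E 2 3
  · exact hpair 1 g1.1 g1.2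
  by_cases g2 : E 0 2 ∧ E 1 3
  · refine hpair (Equiv.swap 1 2) ?_ ?_
    · exact g2.1
    · exact g2.2
  by_cases g3 : E 0 3 ∧ E 1 2
  · refine hpair (Equiv.swap 1 3) ?_ ?_
    · exact g3.1
    · exact hsym _ _ g3.2
  have s0 : E 0 1 ∨ E 0 2 ∨ E 0 3 := by
    obtain ⟨j, hj, he⟩ := hnb 0
    fin_cases j
    · exact absurd rfl hj
    · exact Or.inl he
    · exact Or.inr (Or.inl he)
    · exact Or.inr (Or.inr he)
  have s1 : E 0 1 ∨ E 1 2 ∨ E 1 3 := by
    obtain ⟨j, hj, he⟩ := hnb 1
    fin_cases j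
    · exact Or.inl (hsym _ _ he)
    · exact absurd rfl hj
    · exact Or.inr (Or.inl he)
    · exact Or.inr (Or.inr he)
  have s2 : E 0 2 ∨ E 1 2 ∨ E 2 3 := by
    obtain ⟨j, hj, he⟩ := hnb 2
    fin_cases j
    · exact Or.inl (hsym _ _ he)
    · exact Or.inr (Or.inl (hsym _ _ he))
    · exact absurd rfl hj
    · exact Or.inr (Or.inr he)
  have s3 : E 0 3 ∨ E 1 3 ∨ E 2 3 := by
    obtain ⟨j, hj, he⟩ := hnb 3
    fin_cases j
    · exact Or.inl (hsym _ _ he)
    · exact Or.inr (Or.inl (hsym _ _ he))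
    · exact Or.inr (Or.inr (hsym _ _ he))
    · exact absurd rfl hj
  rcases graph4 _ _ _ _ _ _ s0 s1 s2 s3 g1 g2 g3 with h | h | h | h
  · apply hstar 0
    intro i j hi hj hij he
    fin_cases i <;> fin_cases j
    all_goals first
      | exact absurd rfl hi
      | exact absurd rfl hj
      | exact absurd rfl hij
      | exact h.1 he
      | exact h.2.1 he
      | exact h.2.2 he
      | exact h.1 (hsym _ _ he)
      | exact h.2.1 (hsym _ _ he)
      | exact h.2.2 (hsym _ _ he)
  · apply hstar 1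
    intro i j hi hj hij he
    fin_cases i <;> fin_cases j
    all_goals first
      | exact absurd rfl hi
      | exact absurd rfl hj
      | exact absurd rfl hij
      | exact h.1 he
      | exact h.2.1 he
      | exact h.2.2 he
      | exact h.1 (hsym _ _ he)
      | exact h.2.1 (hsym _ _ he)
      | exact h.2.2 (hsym _ _ he)
  · apply hstar 2
    intro i j hi hj hij he
    fin_cases i <;> fin_cases j
    all_goals first
      | exact absurd rfl hi
      | exact absurd rfl hj
      | exact absurd rfl hij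
      | exact h.1 he
      | exact h.2.1 he
      | exact h.2.2 he
      | exact h.1 (hsym _ _ he)
      | exact h.2.1 (hsym _ _ he)
      | exact h.2.2 (hsym _ _ he)
  · apply hstar 3
    intro i j hi hj hij he
    fin_cases i <;> fin_cases j
    all_goals first
      | exact absurd rfl hi
      | exact absurd rfl hj
      | exact absurd rfl hij
      | exact h.1 he
      | exact h.2.1 he
      | exact h.2.2 he
      | exact h.1 (hsym _ _ he)
      | exact h.2.1 (hsym _ _ he)
      | exact h.2.2 (hsym _ _ he)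

end Pool.Agent.Helper59.FRC.FOUR
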